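import Pool.Agent.TH585.SV.Fib9

/-!
# Pairs of large Iitaka dimension from powerful linear systems and forms along the fibres

Let `X` be a normal projective variety of dimension `d + e`, `Δ` an `ℝ`-divisor on `X`, for instance
the boundary of a klt pair, and `|V|` a linear system on `X` without fixed components, of dimension
`n`, whose rational map `f : X ⇢ ℙⁿ` has an image of dimension `d`, `1 ≤ d ≤ n`, so that its fibres
have dimension `e ≥ 1`; the image may be any nondegenerate subvariety of dimension `d`. Let `Δ₁ ≥ 0`
and `Δ₂` be `ℝ`-divisors with `Δ₁ + Δ₂ ≤ Δ` and suppose: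

* (the members) `D i` (`i < q`) are finitely many members of `|V|` which span `V`, in arbitrary
  position, `c` is the number of the components of this configuration (`V` is the direct sum of `c`,
  but not of `c + 1`, nonzero subspaces such that each `D i` belongs to one of them, the component of
  `D i`), and at every prime divisor `P` of `X` which is a component of some `D i` the multiplicities
  of `P` in two members `D i`, `D i'` of one component of the configuration differ by at least
  `s (1 - δ₁ P)`, where `s > (n + 3 - c) (n - d + 1) (n - d + 2) / 2` (if `c = 1` this means that the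
  largest multiplicity of `P` in the `D i` is at least `s (1 - δ₁ P)`; if `c = 1` and there are at
  least `n + 3` different members then `n + 1` can be taken instead of `n + 2`);
* (the fibres) some positive multiple `m (K_F + Δ₂)` has sections with `lam` algebraically
  independent ratios over the function field of the image. Here `K_F` is the canonical class of the
  foliation which is given by the fibres of `f`; such a section is an `m`-canonical form `θ` along the
  fibres, a function of `e` rational vector fields which are tangent to the fibres, and its order at a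
  prime divisor `P` of `X` on tangent fields which are regular at `P` is at least `- m δ₂ P`. For
  instance any holomorphic `e`-form on a resolution of `X` which does not vanish on the general fibre
  gives such a section with `Δ₂ = 0`, `m = 1`, `lam = 0`.

Then `κ (X, K_X + Δ) ≥ (d + 1 - c) + lam`, the sum of a contribution of the image and of a
contribution of the fibres.

Consequence (published theorems, not part of the Lean). Let `(X, Δ)` be a klt pair of this class with
`e + c ≤ 4 + lam`, for instance `c = 1` and fibres of dimension `e ≤ 3`. Then
`dim X - κ (X, K_X + Δ) ≤ 3`, so the general fibre of the Iitaka fibration has dimension at most `3`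
and a good minimal model (Keel-Matsuki-McKernan, Shokurov); by Lai (Math. Ann. 350 (2011); see also
Gongyo-Lehmann) `(X, Δ)` has a good minimal model and the minimal model programs of `(X, Δ)` with
scaling of an ample divisor terminate, with `K + Δ` nef, and even semiample. The number `q` of
members does not appear in the bound, and the dimension `d + e` of `X` is arbitrary.

The function-field language of the starting repository is used. `K` is the function field of `X`;
the prime divisors of `X` are places `P` of `K` (`Place`, `Divisorial`), `P.ord` is the order along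
`P`, and `X` is given by the set of its prime divisors. The linear system is given by the finite
dimensional space `V` of rational functions: if `a` is the minimum of the orders at `P` of the
members of `V` then the multiplicity of `P` in the divisor of the system which is given by `f ∈ V` is
`P.ord f - a`. A section of `N (K_X + Δ)` is an `N`-canonical form `ω` (`IsPluri`), a function of
`d + e` rational vector fields, whose value on vector fields that are regular at `P` has order at
least `- N δ P`, for all prime divisors `P` of `X`. The rational vector fields which are tangent to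
the fibres are the derivations of `K` over the function field `L` of the image.

Proof (`Pool.Agent.TH585.SV`, files `Blk`, `Ord`, `Fib` to `Fib9`). As for the nonvanishing theorem
`FibresWithForms` (`MP_66b48b_ag`), where the bound for `s` is not strict and only
`κ (X, K_X + Δ) ≥ lam` is claimed; here the sections are multiplied by quotients of members inside
the components of the configuration, which give `d + 1 - c` algebraically independent functions on
the image, and by quotients of forms along the fibres, independent over the field of the image.
-/

set_option autoImplicit false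

open FF Pool.Agent.W602.GT

namespace Pool.Agent.Results.MP_c1e25c_ag.LargeIitakaDimension

/-- The function field of the image of the rational map which is given by the linear system `V`: the
field generated by the quotients of the members. -/
noncomputable def ImageField {K : Type} [Field K] [Algebra ℂ K] (V : Submodule ℂ K) :
    IntermediateField ℂ K :=
  IntermediateField.adjoin ℂ {y : K | ∃ f ∈ V, ∃ g ∈ V, y = f / g}

/-- `γ` is a decomposition of the configuration of the members `φ i` of `V` into `c` components: `V`
has a basis of `n + 1` elements `x a`, divided into `c` nonempty groups (`x a` is in the group `g a`),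
such that `φ i` is in the subspace spanned by the elements of the group `γ i`. -/
def Decomposition (n : ℕ) {q c : ℕ} {K : Type} [Field K] [Algebra ℂ K] (V : Submodule ℂ K)
    (φ : Fin q → K) (γ : Fin q → Fin c) : Prop :=
  ∃ (x : Fin (n + 1) → K) (g : Fin (n + 1) → Fin c), LinearIndependent ℂ x ∧
    Submodule.span ℂ (Set.range x) = V ∧ Function.Surjective g ∧
    ∀ i, φ i ∈ Submodule.span ℂ (x '' {a | g a = γ i})

/-- There are `r` members `φ i` of which no two are proportional. -/
def Different (r : ℕ) {q : ℕ} {K : Type} [Field K] [Algebra ℂ K] (φ : Fin q → K) : Prop :=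
  ∃ τ : Fin r → Fin q, ∀ i j, i ≠ j → ∀ t : ℂ, φ (τ i) ≠ t • φ (τ j)

/-- The condition on the multiplicities, on a variety `X` of dimension `w`: if the prime divisor `P`
of `X` is a component of one of the divisors `D i` (the order of `φ i` at `P` is not the minimum `a`
of the orders of the members of `V`), then for some members `D i`, `D i'` of the same component of
the configuration the difference of the multiplicities of `P` is at least `s (1 - δ P)`. -/
def Multiplicities (w : ℕ) {q c : ℕ} {K : Type} [Field K] [Algebra ℂ K] (V : Submodule ℂ K)
    (φ : Fin q → K) (γ : Fin q → Fin c) (X : Set (Place ℂ K)) (δ : Place ℂ K → ℝ) (s : ℝ) : Prop :=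
  ∀ P ∈ X, Divisorial w P → ∀ a : ℤ, (∀ f ∈ V, f = 0 ∨ a ≤ P.ord f) →
    (∃ f ∈ V, f ≠ 0 ∧ P.ord f = a) → (∃ i, P.ord (φ i) ≠ a) →
    ∃ i i', γ i' = γ i ∧ s * (1 - δ P) ≤ ((P.ord (φ i) - P.ord (φ i') : ℤ) : ℝ)

/-- `θ` is a section of `m (K_F + Δ)`, where `K_F` is the canonical class of the foliation of `X` (a
variety of dimension `w` which is given by the set of its prime divisors) whose tangent vector
fields are the derivations over the field `L`, `e` the dimension of the leaves: an `m`-canonical
form on the tangent vector fields whose values on tangent fields which are regular at `P` have order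
at least `- m δ P`, for all prime divisors `P` of `X`. -/
def IsFibreSection {K : Type} [Field K] [Algebra ℂ K] (w m : ℕ) {e : ℕ} (X : Set (Place ℂ K))
    (δ : Place ℂ K → ℝ) (L : IntermediateField ℂ K) (θ : (Fin e → Derivation L K K) → K) : Prop :=
  IsPluri m θ ∧ ∀ P ∈ X, Divisorial w P → ∀ G : Fin e → Derivation L K K,
    (∀ i f, P.Reg f → P.Reg (G i f)) → θ G = 0 ∨ -(m * δ P) ≤ (P.ord (θ G) : ℝ)

/-- The Iitaka dimension of `K_F + Δ` over the base is at least `lam`: some positive multiple has
sections with `lam` ratios which are algebraically independent over `L` (a nonzero section, if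
`lam = 0`). -/
def FibreKodairaGe {K : Type} [Field K] [Algebra ℂ K] (w e : ℕ) (X : Set (Place ℂ K))
    (δ : Place ℂ K → ℝ) (L : IntermediateField ℂ K) (lam : ℕ) : Prop :=
  ∃ m : ℕ, 0 < m ∧ ∃ θ : Fin (lam + 1) → (Fin e → Derivation L K K) → K,
    (∀ b, IsFibreSection w m X δ L (θ b)) ∧
    ∃ G, θ 0 G ≠ 0 ∧ AlgebraicIndependent L (fun i : Fin lam => θ i.succ G / θ 0 G)

/-- `ω` is a section of `N (K_X + Δ)`, where `X` of dimension `w` is given by the set of its prime
divisors, and `Δ` has the coefficient `δ P` at `P`: an `N`-canonical form whose values on vector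
fields which are regular at `P` have order at least `- N δ P`, for all prime divisors `P` of `X`. -/
def IsSection {K : Type} [Field K] [Algebra ℂ K] (w : ℕ) (X : Set (Place ℂ K))
    (δ : Place ℂ K → ℝ) (N : ℕ) (ω : (Fin w → Derivation ℂ K K) → K) : Prop :=
  IsPluri N ω ∧ ∀ P ∈ X, Divisorial w P → ∀ D : Fin w → Derivation ℂ K K,
    (∀ i, DerReg P (D i)) → ω D = 0 ∨ -(N * δ P) ≤ (P.ord (ω D) : ℝ)

/-- The Iitaka dimension of `K_X + Δ` is at least `κ`: some positive multiple has sections with `κ`
algebraically independent ratios (a nonzero section, if `κ = 0`). -/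
def KodairaGe {K : Type} [Field K] [Algebra ℂ K] (w : ℕ) (X : Set (Place ℂ K))
    (δ : Place ℂ K → ℝ) (κ : ℕ) : Prop :=
  ∃ N : ℕ, 0 < N ∧ ∃ ω : Fin (κ + 1) → (Fin w → Derivation ℂ K K) → K,
    (∀ j, IsSection w X δ N (ω j)) ∧
    ∃ D, ω 0 D ≠ 0 ∧ AlgebraicIndependent ℂ (fun i : Fin κ => ω i.succ D / ω 0 D)

/-- **Iitaka dimension.** Let `K` be the function field of a variety `X` of dimension `d + e`, `V` a
linear system of dimension `n` on `X` whose rational map has an image of dimension `d`, `1 ≤ d ≤ n`,
`e ≥ 1`; `φ i` nonzero members which span `V`, `γ` their decomposition into `c` components (there is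
no decomposition into `c + 1` components), and `R = n + 3 - c`, or `R = n + 1` if `c = 1` and there
are `n + 3` different members. Let `Δ₁ ≥ 0`, `Δ₂`, `Δ ≥ Δ₁ + Δ₂` be real divisors on `X` such that
`Δ₁` satisfies the condition on the multiplicities with a number
`s > R (n - d + 1) (n - d + 2) / 2`, and the Iitaka dimension of `K_F + Δ₂` over the base, for the
foliation of the fibres, is at least `lam ≥ 0`. If `κ = d + 1 - c` is not negative then the Iitaka
dimension of `K_X + Δ` is at least `κ + lam`. -/
theorem result (d e n q c lam κ : ℕ) (hd : 1 ≤ d) (he : 1 ≤ e) (hdn : d ≤ n) (K : Type) [Field K]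
    [Algebra ℂ K] (hK : Algebra.trdeg ℂ K = (d + e : ℕ)) (V : Submodule ℂ K)
    (hV : Algebra.trdeg ℂ (ImageField V) = d)
    (φ : Fin q → K) (hφ0 : ∀ i, φ i ≠ 0) (hφ : Submodule.span ℂ (Set.range φ) = V)
    (γ : Fin q → Fin c) (hγ : Decomposition n V φ γ)
    (hc : ∀ γ' : Fin q → Fin (c + 1), ¬ Decomposition n V φ γ') (hκ : κ + c = d + 1)
    (R : ℕ) (hR : R + c = n + 3 ∨ (c = 1 ∧ Different (n + 3) φ ∧ R = n + 1))
    (X : Set (Place ℂ K)) (δ₁ δ₂ δ : Place ℂ K → ℝ) (hδ₁ : ∀ P ∈ X, 0 ≤ δ₁ P)
    (hδ : ∀ P ∈ X, δ₁ P + δ₂ P ≤ δ P) (s : ℝ)
    (hs : (R : ℝ) * (((n : ℝ) - d + 1) * ((n : ℝ) - d + 2)) < 2 * s)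
    (h : Multiplicities (d + e) V φ γ X δ₁ s)
    (hF : FibreKodairaGe (d + e) e X δ₂ (ImageField V) lam) :
    KodairaGe (d + e) X δ (κ + lam) := by
  have := he
  obtain ⟨k, rfl⟩ := Nat.exists_eq_add_of_le hdn
  have e1 : ((d + k : ℕ) : ℝ) - d = (k : ℝ) := by
    push_cast
    ring
  rw [e1] at hs
  obtain ⟨m, hm, θ, hθ, hne⟩ := hF
  exact (Pool.Agent.TH585.SV.lin_fib (k := k) hd rfl hK (V := V) hV hφ0 hφ hγ hc hR X δ₁ δ₂ δ hδ₁
    hδ hs.le h hm hθ hne).2 κ hκ hs

end Pool.Agent.Results.MP_c1e25c_ag.LargeIitakaDimension
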